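import Pool.Agent.Q150.CoConSpace

/-!
# MP_8dcd4d_gt: a co-consonant space whose Smyth powerspace is not co-consonant
-/

set_option autoImplicit false

open Set Topology TopologicalSpace

namespace Pool.Agent.Results.MP_8dcd4d_gt.SmythFails

open Pool.Agent.Q150.CoCon Pool.Agent.Q150.CoCon.Sp

section

variable {X : Type} [TopologicalSpace X]

theorem sat_aux {F O : Set X} (hO : IsOpen O) : ⋂₀ {U | IsOpen U ∧ F ⊆ U} ⊆ O ↔ F ⊆ O :=
  ⟨fun h => (subset_sInter fun _ hU => hU.2).trans h, fun h => sInter_subset_of_mem ⟨hO, h⟩⟩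

theorem sat_compact {F : Set X} (hF : F.Finite) : IsCompact (⋂₀ {U | IsOpen U ∧ F ⊆ U}) := by
  classical
  refine isCompact_of_finite_subcover fun {ι} U hU hcov => ?_
  have h1 : F ⊆ ⋃ i, U i := (subset_sInter fun _ hU => hU.2).trans hcov
  obtain ⟨t, ht⟩ := hF.isCompact.elim_finite_subcover U hU h1
  exact ⟨t, (sat_aux (isOpen_biUnion fun i _ => hU i)).mpr ht⟩

/-- the saturation of a finite set as a point of the Smyth powerspace -/
def sat (F : Set X) (hF : F.Finite) (hne : F.Nonempty) : PS X :=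
  ⟨⋂₀ {U | IsOpen U ∧ F ⊆ U}, hne.mono (subset_sInter fun _ hU => hU.2), sat_compact hF, by
    unfold Saturated
    congr 1
    ext U
    constructor
    · rintro ⟨h1, h2⟩
      exact ⟨h1, (sat_aux h1).mpr h2⟩
    · rintro ⟨h1, h2⟩
      exact ⟨h1, (sat_aux h1).mp h2⟩⟩

theorem sat_mem_box {F : Set X} {hF : F.Finite} {hne : F.Nonempty} {O : Set X} (hO : IsOpen O) :
    sat F hF hne ∈ box O ↔ F ⊆ O := sat_aux hO

theorem isOpen_box {O : Set X} (hO : IsOpen O) : IsOpen (box O) := fun _ hK => ⟨O, hO, hK, Subset.rfl⟩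

end

/-- the first map -/
def φ (x : Sp) : PS Sp := sat {x} (finite_singleton x) (singleton_nonempty x)

/-- the second map -/
def ψ (x : Sp) : PS Sp := sat {x, a} ((finite_singleton a).insert x) (insert_nonempty _ _)

theorem φ_continuous : Continuous φ := by
  rw [continuous_def]
  intro W hW
  rw [isOpen_iff_forall_mem_open]
  intro x hx
  obtain ⟨U, hU, hxU, hUW⟩ := hW _ hx
  refine ⟨U, fun x' hx' => hUW ((sat_mem_box hU).mpr (singleton_subset_iff.mpr hx')), hU,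
    singleton_subset_iff.mp ((sat_mem_box hU).mp hxU)⟩

theorem ψ_continuous : Continuous ψ := by
  rw [continuous_def]
  intro W hW
  rw [isOpen_iff_forall_mem_open]
  intro x hx
  obtain ⟨U, hU, hxU, hUW⟩ := hW _ hx
  have h := (sat_mem_box hU).mp hxU
  refine ⟨U, fun x' hx' => hUW ((sat_mem_box hU).mpr ?_), hU, h (mem_insert _ _)⟩
  rintro p (rfl | hp)
  · exact hx'
  · exact h (Or.inr hp)

/-- the first half of the test set -/
def O₁ (n₀ M : ℕ) : Set Sp := {p | p = a ∨ ∃ n m, p = y n m ∧ (n = n₀ → M ≤ m)}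

/-- the second half of the test set -/
def O₂ (n₀ M : ℕ) : Set Sp := {p | (∃ n m, p = y n m) ∨ ∃ f : ℕ → ℕ, p = z f ∧ f n₀ ≤ M}

/-- a compact set inside the union of the columns and `a` meets only finitely many columns -/
theorem column_bound (K : Set Sp) (hK : IsCompact K) (hsub : ∀ p ∈ K, p = a ∨ ∃ n m, p = y n m) :
    ∃ j : ℕ, ∀ n m, y n m ∈ K → n < j := by
  classical
  have hc : ∀ n : ℕ, ∃ c : ℕ, (∃ m, y n m ∈ K) → ∃ m, y n m ∈ K ∧ m < c := by
    intro n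
    by_cases h : ∃ m, y n m ∈ K
    · obtain ⟨m, hm⟩ := h
      exact ⟨m + 1, fun _ => ⟨m, hm, Nat.lt_succ_self m⟩⟩
    · exact ⟨0, fun h' => absurd h' h⟩
  choose c hc using hc
  let U : ℕ → Set Sp := fun j => {p | p = a ∨ ∃ n m, p = y n m ∧ (n < j ∨ c n ≤ m)}
  have hU : ∀ j, IsOpen (U j) := by
    intro j
    rw [isOpen_def]
    refine ⟨fun n m h m' hm => ?_, fun n m _ n' => ⟨c n', Or.inr ⟨_, _, rfl, Or.inr le_rfl⟩⟩, fun f h => ?_, fun f h => ?_⟩
    · rcases h with h | ⟨_, _, h, h1⟩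
      · cases h
      · cases h
        exact Or.inr ⟨_, _, rfl, h1.imp id fun h => h.trans hm⟩
    · rcases h with h | ⟨_, _, h, _⟩ <;> cases h
    · rcases h with h | ⟨_, _, h, _⟩ <;> cases h
  have hcov : K ⊆ ⋃ j, U j := by
    intro p hp
    rcases hsub p hp with h | ⟨n, m, h⟩
    · exact mem_iUnion.mpr ⟨0, Or.inl h⟩
    · exact mem_iUnion.mpr ⟨n + 1, Or.inr ⟨n, m, h, Or.inl (Nat.lt_succ_self n)⟩⟩
  have hdir : Directed (· ⊆ ·) U := by
    refine directed_of_isDirected_le fun i j hij p hp => ?_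
    rcases hp with h | ⟨n, m, h, h'⟩
    · exact Or.inl h
    · exact Or.inr ⟨n, m, h, h'.imp (fun h => lt_of_lt_of_le h hij) id⟩
  obtain ⟨j, hj⟩ := hK.elim_directed_cover U hU hcov hdir
  refine ⟨j, fun n m hnm => ?_⟩
  by_contra hn
  obtain ⟨m', hm', hlt⟩ := hc n ⟨m, hnm⟩
  rcases hj hm' with h | ⟨_, _, h, h1⟩
  · cases h
  · cases h
    rcases h1 with h | h <;> omega

/-- a compact set that misses `a` is bounded at every coordinate -/
theorem value_bound (K : Set Sp) (hK : IsCompact K) (ha : a ∉ K) (n₀ : ℕ) : ∃ M : ℕ, K ⊆ O₂ n₀ M := by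
  have hcov : K ⊆ ⋃ M, O₂ n₀ M := by
    intro p hp
    cases p with
    | a => exact absurd hp ha
    | y n m => exact mem_iUnion.mpr ⟨0, Or.inl ⟨_, _, rfl⟩⟩
    | z f => exact mem_iUnion.mpr ⟨f n₀, Or.inr ⟨f, rfl, le_rfl⟩⟩
  have hdir : Directed (· ⊆ ·) (O₂ n₀) := by
    refine directed_of_isDirected_le fun i j hij p hp => ?_
    rcases hp with h | ⟨f, h, h'⟩
    · exact Or.inl h
    · exact Or.inr ⟨f, h, h'.trans hij⟩
  exact hK.elim_directed_cover (O₂ n₀) (fun M => isOpen_O2 n₀ M) hcov hdir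

theorem not_coConsonant : ¬ CoConsonant (PS Sp) := by
  classical
  intro hcc
  have hopen₁ : IsOpen {p : Sp | p = a ∨ ∃ n m, p = y n m} := by
    rw [isOpen_def]
    refine ⟨fun n m _ m' _ => Or.inr ⟨_, _, rfl⟩, fun n m _ n' => ⟨0, Or.inr ⟨_, _, rfl⟩⟩, fun f h => ?_, fun f h => ?_⟩
    · rcases h with h | ⟨_, _, h⟩ <;> cases h
    · rcases h with h | ⟨_, _, h⟩ <;> cases h
  have hopen₂ : IsOpen {p : Sp | p ≠ a} := by
    rw [isOpen_def]
    refine ⟨fun n m _ m' _ h => ?_, fun n m _ n' => ⟨0, fun h => ?_⟩, fun f _ n m h => ?_, fun f _ =>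
      ⟨0, fun g _ h => ?_⟩⟩ <;> cases h
  let 𝒲₀ : Opens (PS Sp) := ⟨box {p : Sp | p = a ∨ ∃ n m, p = y n m} ∪ box {p : Sp | p ≠ a},
    (isOpen_box hopen₁).union (isOpen_box hopen₂)⟩
  have hmem : 𝒲₀ ∈ {𝒲 : Opens (PS Sp) | ∃ f : ℕ → ℕ, φ (z f) ∈ 𝒲 ∧ ∀ n m, f n ≤ m → ψ (y n m) ∈ 𝒲} := by
    refine ⟨fun _ => 0, Or.inr ((sat_mem_box hopen₂).mpr ?_), fun n m _ => Or.inl ((sat_mem_box hopen₁).mpr ?_)⟩
    · rintro p hp h
      rw [mem_singleton_iff.mp hp] at h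
      cases h
    · rintro p (h | h)
      · exact Or.inr ⟨_, _, h⟩
      · exact Or.inl h
  obtain ⟨𝒦, hfin, hsub, h𝒦⟩ := finite_of_coConsonant hcc (scottOpen_eval φ ψ φ_continuous ψ_continuous) hmem
  -- the column
  obtain ⟨n₀, hn₀⟩ : ∃ n₀ : ℕ, ∀ K ∈ 𝒦, (∀ p ∈ K.1, p = a ∨ ∃ n m, p = y n m) → ∀ n m, y n m ∈ K.1 → n < n₀ := by
    have h1 : ∀ K : PS Sp, ∃ j : ℕ, (∀ p ∈ K.1, p = a ∨ ∃ n m, p = y n m) → ∀ n m, y n m ∈ K.1 → n < j := by
      intro K
      by_cases h : ∀ p ∈ K.1, p = a ∨ ∃ n m, p = y n m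
      · obtain ⟨j, hj⟩ := column_bound K.1 K.2.2.1 h
        exact ⟨j, fun _ => hj⟩
      · exact ⟨0, fun h' => absurd h' h⟩
    choose j hj using h1
    refine ⟨hfin.toFinset.sup j, fun K hK h n m hnm => ?_⟩
    exact lt_of_lt_of_le (hj K h n m hnm) (Finset.le_sup (hfin.mem_toFinset.mpr hK))
  obtain ⟨M, hM⟩ : ∃ M : ℕ, ∀ K ∈ 𝒦, a ∉ K.1 → K.1 ⊆ O₂ n₀ M := by
    have h1 : ∀ K : PS Sp, ∃ M : ℕ, a ∉ K.1 → K.1 ⊆ O₂ n₀ M := by
      intro K
      by_cases h : a ∈ K.1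
      · exact ⟨0, fun h' => absurd h h'⟩
      · obtain ⟨M, hM⟩ := value_bound K.1 K.2.2.1 h n₀
        exact ⟨M, fun _ => hM⟩
    choose j hj using h1
    refine ⟨hfin.toFinset.sup j, fun K hK h p hp => ?_⟩
    rcases hj K h hp with h' | ⟨f, h', h''⟩
    · exact Or.inl h'
    · exact Or.inr ⟨f, h', h''.trans (Finset.le_sup (hfin.mem_toFinset.mpr hK))⟩
  have hO₁ : IsOpen (O₁ n₀ (M + 1)) := isOpen_O1 n₀ (M + 1)
  have hO₂ : IsOpen (O₂ n₀ M) := isOpen_O2 n₀ M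
  obtain ⟨f, hf1, hf2⟩ := h𝒦 ⟨box (O₁ n₀ (M + 1)) ∪ box (O₂ n₀ M), (isOpen_box hO₁).union (isOpen_box hO₂)⟩ (by
    intro K hK
    rcases hsub hK with h | h
    · left
      intro p hp
      rcases h hp with h' | ⟨n, m, h'⟩
      · exact Or.inl h'
      · refine Or.inr ⟨n, m, h', fun hn => ?_⟩
        rw [h'] at hp
        have := hn₀ K hK h n m hp
        omega
    · right
      exact hM K hK fun ha => h ha rfl)
  have h1 : f n₀ ≤ M := by
    rcases hf1 with h | h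
    · have := (sat_mem_box hO₁).mp h rfl
      rcases this with h' | ⟨_, _, h', _⟩ <;> cases h'
    · have := (sat_mem_box hO₂).mp h rfl
      rcases this with ⟨_, _, h'⟩ | ⟨g, h', h''⟩
      · cases h'
      · cases h'
        exact h''
  rcases hf2 n₀ (f n₀) le_rfl with h | h
  · have := (sat_mem_box hO₁).mp h (mem_insert _ _)
    rcases this with h' | ⟨_, _, h', h''⟩
    · cases h'
    · cases h'
      have := h'' rfl
      omega
  · have := (sat_mem_box hO₂).mp h (Or.inr rfl)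
    rcases this with ⟨_, _, h'⟩ | ⟨g, h', h''⟩ <;> cases h'

theorem result : ∃ (X : Type) (_ : TopologicalSpace X), T0Space X ∧ CoConsonant X ∧ ¬ CoConsonant (PS X) :=
  ⟨Sp, inferInstance, inferInstance, coConsonant, not_coConsonant⟩

end Pool.Agent.Results.MP_8dcd4d_gt.SmythFails
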